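import Pool.Agent.U485.PT.Bound

set_option autoImplicit false

/-!
# Montgomery's large value conjecture for almost all polynomial phase twists

Let `D(t) = ∑_{N ≤ n ≤ 2N} b_n n^{it}` with ARBITRARY coefficients `|b_n| ≤ 1`, and twist the
coefficients by a polynomial phase of degree `d` without constant term: `b_n e(β_1 n + … + β_d n^d)`.
If `A ≤ 1 + d (2σ - 1)`, then for all `β ∈ [0,1]^d` outside a set of measure `O(N^(-ε/2))` the twisted
polynomial satisfies Q1 for all `T ≤ N^A`, all thresholds `N^τ` with `τ ≥ σ` and all `1`-separated sets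
of real points at once.

Proof: let `k = d + 1`.  The mean value over `β` and `t ≤ T` of the `2k`-th power is bounded by the
number of the pairs of `k`-tuples `x, y` with the same power sums of the orders `1, …, d` and with
`∏ x_i - ∏ y_i = h`, weighted by `min(T, N^k / |h|)`.  By Newton's identities
`∏_i (X - x_i) - ∏_i (X - y_i)` is the constant `± h`; so for `h ≠ 0` all `x_1 - y_i` and all
`y_1 - x_i` divide `h`, and `x_1` and `h` determine the pair up to `N^ε` possibilities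
(`Pool/Agent/U485/PT/Count.lean`).  This gives `O(N^(k + ε) T)` for `T ≥ N`.
-/

namespace Pool.Agent.Results.MP_ecd12e_nt.PolynomialTwists

open Finset MeasureTheory

/-- The Dirichlet polynomial `D(t) = ∑_{N ≤ n ≤ 2N} b_n n^{it}`. -/
noncomputable def D (N : ℕ) (b : ℕ → ℂ) (t : ℝ) : ℂ :=
  ∑ n ∈ Icc N (2 * N), b n * Complex.exp (Complex.I * (t : ℂ) * ((Real.log (n : ℝ) : ℝ) : ℂ))

/-- The coefficients `b_n e(β_1 n + β_2 n² + … + β_d n^d)`, `e(x) = exp(2πix)`. -/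
noncomputable def twist (d : ℕ) (β : Fin d → ℝ) (b : ℕ → ℂ) (n : ℕ) : ℂ :=
  b n * Complex.exp (2 * Real.pi * Complex.I * ((∑ j : Fin d, β j * (n : ℝ) ^ (j.val + 1) : ℝ) : ℂ))

/-- The inequality of Q1 for all `1`-separated sets `W` of real points of `[0, N^A]` (in particular for
all sets of integers of `[0, T]`, `T ≤ N^A`) and all thresholds `N^τ`, `τ ≥ σ`. -/
def Good (N : ℕ) (b : ℕ → ℂ) (σ A ε : ℝ) : Prop :=
  ∀ τ : ℝ, σ ≤ τ → ∀ W : Finset ℝ, (∀ t ∈ W, 0 ≤ t ∧ t ≤ (N : ℝ) ^ A) →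
    (∀ t ∈ W, ∀ s ∈ W, t ≠ s → 1 ≤ |t - s|) → (∀ t ∈ W, (N : ℝ) ^ τ < ‖D N b t‖) →
      (W.card : ℝ) ≤ 2 * (N : ℝ) ^ (2 - 2 * τ + ε)

theorem D_twist (d N : ℕ) (β : Fin d → ℝ) (b : ℕ → ℂ) (t : ℝ) :
    D N (twist d β b) t = Pool.Agent.U485.PT.DT d N b β t := by
  unfold D twist Pool.Agent.U485.PT.DT
  refine sum_congr rfl fun n _ => ?_
  rw [mul_assoc, ← Complex.exp_add]
  congr 2
  unfold Pool.Agent.U485.PT.pha
  push_cast
  ring

/-- Let `σ > 1/2`, `A ≥ 1`, `ε > 0` and `A ≤ 1 + d (2σ - 1)`. For all `N`, all `|b_n| ≤ 1` and all `β` in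
the unit box of dimension `d`, outside a set of measure at most `C N^(-ε/2)`, the twisted polynomial
satisfies the inequality of Q1 for all `T ≤ N^A`. -/
theorem result (σ A ε : ℝ) (_hσ : 1 / 2 < σ) (hA : 1 ≤ A) (hε : 0 < ε) (d : ℕ)
    (hd : A ≤ 1 + d * (2 * σ - 1)) :
    ∃ C : ℝ, 0 < C ∧ ∀ N : ℕ, 1 ≤ N → ∀ b : ℕ → ℂ, (∀ n, ‖b n‖ ≤ 1) →
      volume {β : Fin d → ℝ | β ∈ Set.Icc 0 1 ∧ ¬ Good N (twist d β b) σ A ε} ≤
        ENNReal.ofReal (C * (N : ℝ) ^ (-(ε / 2))) := by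
  obtain ⟨C, hC0, hC⟩ := Pool.Agent.U485.PT.main d A ε hA hε
  refine ⟨C, hC0, ?_⟩
  intro N hN b hb
  have hN1 : (1 : ℝ) ≤ N := by exact_mod_cast hN
  have hN0 : (0 : ℝ) < N := by linarith
  refine (measure_mono ?_).trans (hC N hN b hb)
  rintro β ⟨hβ, hbad⟩
  refine ⟨hβ, fun hgood => hbad ?_⟩
  intro τ hτ W hW hsep hlarge
  have hT : (N : ℝ) ≤ (N : ℝ) ^ A := by
    calc (N : ℝ) = (N : ℝ) ^ (1 : ℝ) := (Real.rpow_one _).symm
      _ ≤ _ := Real.rpow_le_rpow_of_exponent_le hN1 hA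
  have h1 := hgood _ hT le_rfl W hW hsep
  set V : ℝ := (N : ℝ) ^ τ with hV
  have hV0 : 0 < V := Real.rpow_pos_of_pos hN0 _
  have h2 : (W.card : ℝ) * V ^ (2 * (d + 1)) ≤
      ∑ t ∈ W, ‖Pool.Agent.U485.PT.DT d N b β t‖ ^ (2 * (d + 1)) := by
    rw [← nsmul_eq_mul, ← sum_const]
    refine sum_le_sum fun t ht => ?_
    have := hlarge t ht
    rw [D_twist] at this
    exact pow_le_pow_left₀ hV0.le this.le _
  have h3 := h2.trans h1
  have hVp : V ^ (2 * (d + 1)) = (N : ℝ) ^ (τ * (2 * (d + 1))) := by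
    rw [hV, ← Real.rpow_natCast, ← Real.rpow_mul hN0.le]
    congr 1; push_cast; ring
  rw [hVp] at h3
  have hP : 0 < (N : ℝ) ^ (τ * (2 * (d + 1))) := Real.rpow_pos_of_pos hN0 _
  refine le_of_mul_le_mul_right (h3.trans ?_) hP
  rw [mul_assoc, mul_assoc, ← Real.rpow_add hN0, ← Real.rpow_add hN0]
  refine mul_le_mul_of_nonneg_left ?_ (by norm_num)
  refine Real.rpow_le_rpow_of_exponent_le hN1 ?_
  push_cast
  have hd0 : (0 : ℝ) ≤ d := by positivity
  nlinarith [mul_le_mul_of_nonneg_left hτ hd0]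

end Pool.Agent.Results.MP_ecd12e_nt.PolynomialTwists
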