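import Mathlib
import Pool.Agent.U759.PV.Fin

set_option autoImplicit false

/-!
# Montgomery's large value conjecture for coefficients supported on values of polynomials

For every `A ≥ 1`, `K ≥ 1`, `0 < μ ≤ 1`, `ω > 0` there is `c > 0` such that Q1 holds, without the loss `N^ε` and for
all `T ≤ N^A`, for all coefficients bounded by `1` supported on the values `P_j(x)`, `0 ≤ x < L_j`, of any
polynomials `P_j` of degree at most `K` which take integral values in `[N, 2N]` at these `x`, where `L_j ≥ N^μ`,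
`∑ L_j ≤ N^(1/2+c)` and where the values of `P_j` vary by at least `ω N`; and on any `N^(1/2)` further integers. For
instance, on all integers of `[N, 2N]` at distance at most `N^(1/2-1/k+c)` from a perfect `k`-th power.
-/

namespace Pool.Agent.Results.MP_ecd12e_nt.PolynomialValues

open Finset Polynomial

/-- `D(t) = ∑_{n=N}^{2N} b_n n^{it}` -/
noncomputable def D (N : ℕ) (b : ℕ → ℂ) (t : ℝ) : ℂ :=
  ∑ n ∈ Icc N (2 * N), b n * Complex.exp (Complex.I * (t : ℂ) * (Real.log (n : ℝ) : ℂ))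

/-- `n` lies in `E` or is one of the values `P_j(0), P_j(1), …, P_j(L_j - 1)`, `j ∈ J` -/
def Supp (J : Finset ℕ) (P : ℕ → ℝ[X]) (L : ℕ → ℕ) (E : Finset ℕ) (n : ℕ) : Prop :=
  n ∈ E ∨ ∃ j ∈ J, ∃ x < L j, (P j).eval (x : ℝ) = n

/-- For `j ∈ J` the polynomial `P_j` has degree at most `K`, takes integral values in `[N, 2N]` at
`0, 1, …, L_j - 1`, two of these values differ by at least `ω N`, and `L_j ≥ N^μ`; moreover `∑ L_j ≤ N^(1/2+c)`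
and `E` has at most `N^(1/2)` elements. -/
def Thin (N : ℕ) (μ ω c : ℝ) (K : ℕ) (J : Finset ℕ) (P : ℕ → ℝ[X]) (L : ℕ → ℕ) (E : Finset ℕ) : Prop :=
  (∀ j ∈ J, (P j).natDegree ≤ K ∧ (N : ℝ) ^ μ ≤ L j ∧
    (∀ x < L j, ∃ n : ℕ, (P j).eval (x : ℝ) = n ∧ N ≤ n ∧ n ≤ 2 * N) ∧
    ∃ x < L j, ∃ y < L j, ω * N ≤ (P j).eval (x : ℝ) - (P j).eval (y : ℝ)) ∧
    ∑ j ∈ J, (L j : ℝ) ≤ (N : ℝ) ^ (1 / 2 + c) ∧ (E.card : ℝ) ≤ (N : ℝ) ^ (1 / 2 : ℝ)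

open Pool.Agent.U759.PV in
/-- the mean value in terms of `Thin` and `Supp` -/
theorem onTwo' (A μ ω : ℝ) (K : ℕ) (hA : 1 ≤ A) (hμ : 0 < μ) (hμ1 : μ ≤ 1) (hω : 0 < ω) (hK : 1 ≤ K) :
    ∃ c C : ℝ, 0 < c ∧ 1 ≤ C ∧ ∀ (N : ℕ) (J : Finset ℕ) (P : ℕ → ℝ[X]) (L : ℕ → ℕ) (E : Finset ℕ) (T : ℝ)
      (b : ℕ → ℂ), 1 ≤ N → Thin N μ ω c K J P L E → T ≤ (N : ℝ) ^ A → (∀ n, ‖b n‖ ≤ 1) →
      (∀ n ∈ Icc N (2 * N), b n ≠ 0 → Supp J P L E n) →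
      ∀ S : Finset ℝ, (∀ t ∈ S, 0 ≤ t ∧ t ≤ T) → (∀ t ∈ S, ∀ u ∈ S, t ≠ u → 1 ≤ |t - u|) →
        ∑ t ∈ S, ‖D N b t‖ ^ 2 ≤ C * ((N : ℝ) + S.card) * N := by
  obtain ⟨c, C, hc0, hC0, h⟩ := onTwo A μ ω K hA hμ hμ1 hω hK
  refine ⟨c, C, hc0, hC0, ?_⟩
  intro N J P L E T b hN hBE hT hb hs S hS hsep
  obtain ⟨h1, h2, h3⟩ := hBE
  set f : ℕ → ℕ → ℕ := fun j x => ⌊(P j).eval (x : ℝ)⌋₊ with hf
  have hfe : ∀ j ∈ J, ∀ x < L j, (f j x : ℝ) = (P j).eval (x : ℝ) ∧ N ≤ f j x ∧ f j x ≤ 2 * N := by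
    intro j hj x hx
    obtain ⟨n, hn, hn1, hn2⟩ := (h1 j hj).2.2.1 x hx
    have e : f j x = n := by
      rw [hf]
      simp only [hn, Nat.floor_natCast]
    rw [e, hn]
    exact ⟨rfl, hn1, hn2⟩
  refine h N J L f E hN ?_ h2 h3 T S b hT hsep hS ?_ hb
  · intro j hj
    obtain ⟨a1, a2, a3, x, hx, y, hy, hxy⟩ := h1 j hj
    refine ⟨a2, ⟨P j, a1, fun x hx => (hfe j hj x hx).1⟩, fun x hx => (hfe j hj x hx).2, x, hx, y, hy, ?_⟩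
    rw [(hfe j hj x hx).1, (hfe j hj y hy).1]
    exact hxy
  · intro n hn hne
    rcases hs n hn hne with h5 | ⟨j, hj, x, hx, hxn⟩
    · exact Or.inl h5
    · refine Or.inr ⟨j, hj, x, hx, ?_⟩
      have e := (hfe j hj x hx).1
      rw [hxn] at e
      exact_mod_cast e.symm

open Pool.Agent.R516.MS in
/-- Let `A ≥ 1`, `K ≥ 1`, `0 < μ ≤ 1`, `ω > 0`. There is `c > 0` such that for all `T ≤ N^A` and all `|b_n| ≤ 1`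
supported in `[N, 2N]` on values `P_j(x)`, `x < L_j`, and elements of `E`, where the polynomials `P_j` and `E` satisfy
`Thin`: (i) `|W| ≤ C N²/V²` for all `1`-separated `W ⊂ [0,T]` (for instance sets of integers) with `|D| ≥ V` on `W`,
as soon as `V² ≥ C N`, with a constant `C` depending on `A`, `K`, `μ`, `ω`; (ii) `|W| ≤ C_σ N^(2-2σ)` if `σ > 1/2`
and `|D| > N^σ` on `W`. -/
theorem result (A μ ω : ℝ) (K : ℕ) (hA : 1 ≤ A) (hμ : 0 < μ) (hμ1 : μ ≤ 1) (hω : 0 < ω) (hK : 1 ≤ K) :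
    ∃ c : ℝ, 0 < c ∧
      (∃ C : ℝ, ∀ (N : ℕ) (J : Finset ℕ) (P : ℕ → ℝ[X]) (L : ℕ → ℕ) (E : Finset ℕ) (T : ℝ) (b : ℕ → ℂ), 1 ≤ N →
        Thin N μ ω c K J P L E → T ≤ (N : ℝ) ^ A → (∀ n, ‖b n‖ ≤ 1) →
        (∀ n ∈ Icc N (2 * N), b n ≠ 0 → Supp J P L E n) →
        ∀ (W : Finset ℝ) (V : ℝ), (∀ t ∈ W, 0 ≤ t ∧ t ≤ T) → (∀ t ∈ W, ∀ u ∈ W, t ≠ u → 1 ≤ |t - u|) →
          0 < V → C * N ≤ V ^ 2 → (∀ t ∈ W, V ≤ ‖D N b t‖) → (W.card : ℝ) ≤ C * (N : ℝ) ^ 2 / V ^ 2) ∧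
      ∀ σ : ℝ, 1 / 2 < σ → ∃ C : ℝ, ∀ (N : ℕ) (J : Finset ℕ) (P : ℕ → ℝ[X]) (L : ℕ → ℕ) (E : Finset ℕ) (T : ℝ)
        (b : ℕ → ℂ), 1 ≤ N → Thin N μ ω c K J P L E → T ≤ (N : ℝ) ^ A → (∀ n, ‖b n‖ ≤ 1) →
        (∀ n ∈ Icc N (2 * N), b n ≠ 0 → Supp J P L E n) →
        ∀ W : Finset ℝ, (∀ t ∈ W, 0 ≤ t ∧ t ≤ T) → (∀ t ∈ W, ∀ u ∈ W, t ≠ u → 1 ≤ |t - u|) →
          (∀ t ∈ W, (N : ℝ) ^ σ < ‖D N b t‖) → (W.card : ℝ) ≤ C * (N : ℝ) ^ (2 - 2 * σ) := by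
  obtain ⟨c, C0, hc0, hC0, h⟩ := onTwo' A μ ω K hA hμ hμ1 hω hK
  have hL : ∀ (N : ℕ) (J : Finset ℕ) (P : ℕ → ℝ[X]) (L : ℕ → ℕ) (E : Finset ℕ) (T : ℝ) (b : ℕ → ℂ), 1 ≤ N →
        Thin N μ ω c K J P L E → T ≤ (N : ℝ) ^ A → (∀ n, ‖b n‖ ≤ 1) →
        (∀ n ∈ Icc N (2 * N), b n ≠ 0 → Supp J P L E n) →
        ∀ (W : Finset ℝ) (V : ℝ), (∀ t ∈ W, 0 ≤ t ∧ t ≤ T) → (∀ t ∈ W, ∀ u ∈ W, t ≠ u → 1 ≤ |t - u|) →
          0 < V → 2 * C0 * N ≤ V ^ 2 → (∀ t ∈ W, V ≤ ‖D N b t‖) →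
          (W.card : ℝ) ≤ 2 * C0 * (N : ℝ) ^ 2 / V ^ 2 := by
    intro N J P L E T b hN hBE hT hb hs W V hW hsep hV hVN hD
    have h4 := h N J P L E T b hN hBE hT hb hs W hW hsep
    exact (large (by linarith) (Nat.cast_nonneg _) W (fun t => ‖D N b t‖) h4 hV hVN hD).1
  refine ⟨c, hc0, ⟨2 * C0, hL⟩, ?_⟩
  intro σ hσ
  obtain ⟨C, hC⟩ := sigmaForm (2 * C0) A σ (by linarith) (by linarith) hσ
  refine ⟨C, ?_⟩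
  intro N J P L E T b hN hBE hT hb hs W hW hsep hD
  exact hC N T (fun t => ‖D N b t‖) W hN hT hW hsep hD
    (fun V hV hVN hVD => hL N J P L E T b hN hBE hT hb hs W V hW hsep hV hVN hVD)

end Pool.Agent.Results.MP_ecd12e_nt.PolynomialValues
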