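import Pool.Agent.U485.RF.Tools

/-!
# Montgomery's large value conjecture for randomly perturbed integers

Let `θ 0, θ 1, …` be independent and uniform on `[0, 1]`. For almost every `θ` the polynomials
`D(t) = ∑_{N ≤ n ≤ 2N} b_n (n + θ_n)^{it}` satisfy all of Q1, and even the form of the conjecture with the
normalisation `∑ |b_n|²` and with an arbitrary threshold, for all complex coefficients (for the integers
themselves this form is false by Bourgain's examples).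

The proof is the mean square theorem `Pool.Agent.U160.RF.ae_lsum` of helper160 (hand-in
`MP_a93a41_nt.RandomFrequencies`) and elementary estimates.
-/

set_option autoImplicit false

namespace Pool.Agent.Results.MP_ecd12e_nt.RandomFrequencies

open MeasureTheory Finset Filter Pool.Agent.U160.RF Pool.Agent.U485.RF

/-- **Montgomery's large value conjecture holds for almost every perturbation of the integers.** -/
theorem result :
    ∀ᵐ θ : ℕ → ℝ ∂(Measure.infinitePi fun _ : ℕ => (volume : Measure ℝ).restrict (Set.Icc 0 1)),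
      (∀ σ A ε : ℝ, 1 / 2 < σ → 1 ≤ A → 0 < ε → ∃ C : ℝ, 0 < C ∧
        ∀ (N : ℕ) (T : ℝ) (b : ℕ → ℂ) (W : Finset ℤ),
          1 ≤ N → (N : ℝ) ≤ T → T ≤ (N : ℝ) ^ A →
          (∀ n ∈ Finset.Icc N (2 * N), ‖b n‖ ≤ 1) →
          (∀ t ∈ W, 0 ≤ (t : ℝ) ∧ (t : ℝ) ≤ T ∧
            (N : ℝ) ^ σ < ‖∑ n ∈ Finset.Icc N (2 * N), b n * ((n + θ n : ℝ) : ℂ) ^ ((t : ℂ) * Complex.I)‖) →
          (W.card : ℝ) ≤ C * (N : ℝ) ^ (2 - 2 * σ + ε)) ∧
      (∀ B : ℕ, ∃ C : ℝ, 0 < C ∧ ∀ (N : ℕ) (t₀ V : ℝ) (b : ℕ → ℂ) (W : Finset ℝ),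
          1 ≤ N → 0 < V →
          C * Real.log (2 * N) ^ 5 * ∑ n ∈ Finset.Icc N (2 * N), ‖b n‖ ^ 2 ≤ V ^ 2 →
          (∀ t ∈ W, t₀ ≤ t ∧ t ≤ t₀ + (N : ℝ) ^ B ∧
            V ≤ ‖∑ n ∈ Finset.Icc N (2 * N), b n * ((n + θ n : ℝ) : ℂ) ^ ((t : ℂ) * Complex.I)‖) →
          (∀ t ∈ W, ∀ u ∈ W, t ≠ u → 1 ≤ |t - u|) →
          (W.card : ℝ) ≤
            C * N * Real.log (2 * N) ^ 5 * (∑ n ∈ Finset.Icc N (2 * N), ‖b n‖ ^ 2) / V ^ 2) := by
  rw [show (Measure.infinitePi fun _ : ℕ => (volume : Measure ℝ).restrict (Set.Icc 0 1)) = mu from rfl]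
  filter_upwards [ae_MS] with θ hθ
  obtain ⟨-, h⟩ := hθ
  refine ⟨?_, ?_⟩
  · intro σ A ε hσ hA hε
    obtain ⟨C, hC, h1⟩ := large_bdd h σ A ε hσ hA hε
    refine ⟨C, hC, fun N T b W hN hNT hTA hb hW => h1 N T b W hN hNT hTA hb fun t ht => ?_⟩
    have h2 := hW t ht
    unfold P
    push_cast at h2 ⊢
    exact h2
  · intro B
    obtain ⟨C, hC, hMS⟩ := h B
    refine ⟨2 * C, by positivity, fun N t₀ V b W hN hV hVX hW hsep => ?_⟩
    exact large hMS N t₀ V b W hN (fun t ht => ⟨(hW t ht).1, (hW t ht).2.1⟩) hsep hV hVX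
      fun t ht => (hW t ht).2.2

end Pool.Agent.Results.MP_ecd12e_nt.RandomFrequencies
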