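import Mathlib
import Pool.Agent.U108.DT.P

set_option autoImplicit false

/-!
# Montgomery's large value conjecture for coefficients supported on integers with restricted digits

For every base `b` and every `B`, `m`, `ω > 0` there is `c > 0` such that Q1 holds, without the loss `N^ε` and for all
`T ≤ N^B`, for all coefficients bounded by `1` supported on the numbers `A_j + Q_j x` of `[N, 2N]`, where the digits of
`x < b^(l_j)` in base `b` lie in arbitrary sets of at least two digits (depending on `j` and on the place), provided that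
there are at most `N^(1/2+c)` such numbers; and on any `N^(1/2)` further integers.
-/

namespace Pool.Agent.Results.MP_ecd12e_nt.RestrictedDigitSupports

open Finset

/-- `D(t) = ∑_{n=N}^{2N} a_n n^{it}` -/
noncomputable def D (N : ℕ) (a : ℕ → ℂ) (t : ℝ) : ℂ :=
  ∑ n ∈ Icc N (2 * N), a n * Complex.exp (Complex.I * (t : ℂ) * (Real.log (n : ℝ) : ℂ))

/-- The integers `0 ≤ x < b ^ l` whose `i`-th digit in base `b` lies in `G i`, for all `i < l`. -/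
def Dig (b : ℕ) (G : ℕ → Finset ℕ) (l : ℕ) : Finset ℕ :=
  (range (b ^ l)).filter (fun x : ℕ => ∀ i < l, x / b ^ i % b ∈ G i)

/-- `n` lies in `E` or is one of the numbers `A_j + Q_j x`, `x ∈ Dig b (G j) (l j)`, `j ∈ J`. -/
def Supp (b : ℕ) (J : Finset ℕ) (l A Q : ℕ → ℕ) (G : ℕ → ℕ → Finset ℕ) (E : Finset ℕ) (n : ℕ) : Prop :=
  n ∈ E ∨ ∃ j ∈ J, ∃ x ∈ Dig b (G j) (l j), n = A j + Q j * x

/-- For `j ∈ J`: `Q_j ≥ 1`, `ω A_j ≤ Q_j b ^ (l_j) ≤ A_j`, `b ^ (m l_j) ≥ 2 N`, the sets `G j i`, `i < l_j`, are sets of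
at least two digits in base `b`, and `A_j + Q_j x ≤ 2 N` for all `x ∈ Dig b (G j) (l j)`; moreover the sum over `j ∈ J`
of the numbers of elements of `Dig b (G j) (l j)` is at most `N^(1/2+c)` and `E` has at most `N^(1/2)` elements. -/
def Thin (N b m : ℕ) (ω c : ℝ) (J : Finset ℕ) (l A Q : ℕ → ℕ) (G : ℕ → ℕ → Finset ℕ) (E : Finset ℕ) : Prop :=
  (∀ j ∈ J, 1 ≤ Q j ∧ Q j * b ^ l j ≤ A j ∧ ω * A j ≤ Q j * (b : ℝ) ^ l j ∧ 2 * N ≤ b ^ (m * l j) ∧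
    (∀ i < l j, G j i ⊆ range b ∧ 2 ≤ (G j i).card) ∧ ∀ x ∈ Dig b (G j) (l j), A j + Q j * x ≤ 2 * N) ∧
    ∑ j ∈ J, ((Dig b (G j) (l j)).card : ℝ) ≤ (N : ℝ) ^ (1 / 2 + c) ∧ (E.card : ℝ) ≤ (N : ℝ) ^ (1 / 2 : ℝ)

/-- the mean value in terms of `Thin` and `Supp` -/
theorem onTwo' (b m B : ℕ) (hb : 2 ≤ b) (ω : ℝ) (hω : 0 < ω) :
    ∃ c C : ℝ, 0 < c ∧ 1 ≤ C ∧ ∀ (N : ℕ) (J : Finset ℕ) (l A Q : ℕ → ℕ) (G : ℕ → ℕ → Finset ℕ) (E : Finset ℕ) (T : ℝ)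
      (a : ℕ → ℂ), 1 ≤ N → Thin N b m ω c J l A Q G E → T ≤ (N : ℝ) ^ B → (∀ n, ‖a n‖ ≤ 1) →
      (∀ n ∈ Icc N (2 * N), a n ≠ 0 → Supp b J l A Q G E n) →
      ∀ W : Finset ℝ, (∀ t ∈ W, 0 ≤ t ∧ t ≤ T) → (∀ t ∈ W, ∀ u ∈ W, t ≠ u → 1 ≤ |t - u|) →
        ∑ t ∈ W, ‖D N a t‖ ^ 2 ≤ C * ((N : ℝ) + W.card) * N := by
  classical
  obtain ⟨c, C, hc, hC, h⟩ := Pool.Agent.U108.DT.AS.digitN b hb m B ω hω
  refine ⟨c, 4 * C, hc, by linarith, ?_⟩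
  intro N J l A Q G E T a hN hThin hT ha hs W hW hsep
  obtain ⟨h1, h2, h3⟩ := hThin
  have hNr : (1 : ℝ) ≤ N := by exact_mod_cast hN
  have h2N : (N : ℝ) ≤ ((2 * N : ℕ) : ℝ) := by push_cast; linarith
  set a' : ℕ → ℂ := fun n => if N ≤ n then a n else 0 with ha'
  have hD : ∀ t : ℝ, D N a t = ∑ n ∈ Icc 1 (2 * N), a' n * Pool.Agent.TH705.DL.ph t n := by
    intro t
    unfold D
    have e1 : ∑ n ∈ Icc N (2 * N), a n * Complex.exp (Complex.I * (t : ℂ) * (Real.log (n : ℝ) : ℂ)) =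
        ∑ n ∈ Icc N (2 * N), a' n * Pool.Agent.TH705.DL.ph t n := by
      apply sum_congr rfl
      intro n hn
      rw [mem_Icc] at hn
      simp only [ha', if_pos hn.1]
      rfl
    rw [e1]
    apply sum_subset
    · intro n hn
      rw [mem_Icc] at hn ⊢
      omega
    · intro n hn hn'
      rw [mem_Icc] at hn hn'
      have : ¬ N ≤ n := by omega
      simp only [ha', if_neg this, zero_mul]
  have h4 := (h (2 * N) J l A Q G E T (by omega) h1 (h2.trans (Real.rpow_le_rpow (by linarith) h2N (by linarith)))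
    (h3.trans (Real.rpow_le_rpow (by linarith) h2N (by norm_num))) (hT.trans (pow_le_pow_left₀ (by linarith) h2N _)) 0 W a' hsep
    (fun t ht => ⟨(hW t ht).1, by linarith [(hW t ht).2]⟩) (by
      intro n hn hne
      rw [mem_Icc] at hn
      simp only [ha'] at hne
      split_ifs at hne with h5
      · exact hs n (mem_Icc.2 ⟨h5, hn.2⟩) hne
      · exact absurd rfl hne)).1 (by
      intro n
      simp only [ha']
      split_ifs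
      · exact ha n
      · simp)
  simp only [hD]
  refine h4.trans ?_
  push_cast
  have h5 : (0 : ℝ) ≤ W.card := Nat.cast_nonneg _
  have h6 : 0 ≤ C * (W.card : ℝ) * N := by positivity
  nlinarith

/-- Let `b ≥ 2`, `m`, `B` be natural numbers and `ω > 0`. There is `c > 0` such that for all `T ≤ N^B` and all
`|a_n| ≤ 1` supported in `[N, 2N]` on the set `Supp`, where the families and `E` satisfy `Thin`:
(i) `|W| ≤ C N²/V²` for all `1`-separated `W ⊂ [0,T]` (for instance sets of integers) with `|D| ≥ V` on `W`, as soon as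
`V² ≥ C N`, with a constant `C` depending on `b`, `m`, `B`, `ω`; (ii) `|W| ≤ C_σ N^(2-2σ)` if `σ > 1/2` and
`|D| > N^σ` on `W`. -/
theorem result (b m B : ℕ) (hb : 2 ≤ b) (ω : ℝ) (hω : 0 < ω) :
    ∃ c : ℝ, 0 < c ∧
      (∃ C : ℝ, ∀ (N : ℕ) (J : Finset ℕ) (l A Q : ℕ → ℕ) (G : ℕ → ℕ → Finset ℕ) (E : Finset ℕ) (T : ℝ) (a : ℕ → ℂ),
        1 ≤ N → Thin N b m ω c J l A Q G E → T ≤ (N : ℝ) ^ B → (∀ n, ‖a n‖ ≤ 1) →
        (∀ n ∈ Icc N (2 * N), a n ≠ 0 → Supp b J l A Q G E n) →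
        ∀ (W : Finset ℝ) (V : ℝ), (∀ t ∈ W, 0 ≤ t ∧ t ≤ T) → (∀ t ∈ W, ∀ u ∈ W, t ≠ u → 1 ≤ |t - u|) →
          0 < V → C * N ≤ V ^ 2 → (∀ t ∈ W, V ≤ ‖D N a t‖) → (W.card : ℝ) ≤ C * (N : ℝ) ^ 2 / V ^ 2) ∧
      ∀ σ : ℝ, 1 / 2 < σ → ∃ C : ℝ, ∀ (N : ℕ) (J : Finset ℕ) (l A Q : ℕ → ℕ) (G : ℕ → ℕ → Finset ℕ) (E : Finset ℕ)
        (T : ℝ) (a : ℕ → ℂ), 1 ≤ N → Thin N b m ω c J l A Q G E → T ≤ (N : ℝ) ^ B → (∀ n, ‖a n‖ ≤ 1) →
        (∀ n ∈ Icc N (2 * N), a n ≠ 0 → Supp b J l A Q G E n) →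
        ∀ W : Finset ℝ, (∀ t ∈ W, 0 ≤ t ∧ t ≤ T) → (∀ t ∈ W, ∀ u ∈ W, t ≠ u → 1 ≤ |t - u|) →
          (∀ t ∈ W, (N : ℝ) ^ σ < ‖D N a t‖) → (W.card : ℝ) ≤ C * (N : ℝ) ^ (2 - 2 * σ) := by
  obtain ⟨c, C0, hc0, hC0, h⟩ := onTwo' b m B hb ω hω
  have hL : ∀ (N : ℕ) (J : Finset ℕ) (l A Q : ℕ → ℕ) (G : ℕ → ℕ → Finset ℕ) (E : Finset ℕ) (T : ℝ) (a : ℕ → ℂ),
        1 ≤ N → Thin N b m ω c J l A Q G E → T ≤ (N : ℝ) ^ B → (∀ n, ‖a n‖ ≤ 1) →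
        (∀ n ∈ Icc N (2 * N), a n ≠ 0 → Supp b J l A Q G E n) →
        ∀ (W : Finset ℝ) (V : ℝ), (∀ t ∈ W, 0 ≤ t ∧ t ≤ T) → (∀ t ∈ W, ∀ u ∈ W, t ≠ u → 1 ≤ |t - u|) →
          0 < V → 2 * C0 * N ≤ V ^ 2 → (∀ t ∈ W, V ≤ ‖D N a t‖) →
          (W.card : ℝ) ≤ 2 * C0 * (N : ℝ) ^ 2 / V ^ 2 := by
    intro N J l A Q G E T a hN hThin hT ha hs W V hW hsep hV hVN hD
    have h4 := h N J l A Q G E T a hN hThin hT ha hs W hW hsep
    exact (Pool.Agent.R516.MS.large (by linarith) (Nat.cast_nonneg _) W (fun t => ‖D N a t‖) h4 hV hVN hD).1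
  refine ⟨c, hc0, ⟨2 * C0, hL⟩, ?_⟩
  intro σ hσ
  obtain ⟨C, hC⟩ := Pool.Agent.R516.MS.sigmaForm (2 * C0) (B : ℝ) σ (by linarith) (Nat.cast_nonneg _) hσ
  refine ⟨C, ?_⟩
  intro N J l A Q G E T a hN hThin hT ha hs W hW hsep hD
  have hT' : T ≤ (N : ℝ) ^ (B : ℝ) := by
    rw [Real.rpow_natCast]
    exact hT
  exact hC N T (fun t => ‖D N a t‖) W hN hT' hW hsep hD
    (fun V hV hVN hVD => hL N J l A Q G E T a hN hThin hT ha hs W V hW hsep hV hVN hVD)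

end Pool.Agent.Results.MP_ecd12e_nt.RestrictedDigitSupports
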